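import Pool.Agent.Q170.FZ.Pow

/-!
Counting integral points of a box by the values of a polynomial on the lines parallel to a coordinate
axis (helper file, adapted from `Pool.Agent.Q170.FP.card_core`).
-/

set_option autoImplicit false

namespace Pool.Agent.Q170.FZ

open MvPolynomial
open Pool.Agent.Q170.ZP.Count

variable {r : ℕ}

/-- the size of the values of a polynomial -/
theorem eval_le' (P : MvPolynomial (Fin r) ℤ) :
    ∃ C : ℕ, 0 < C ∧ ∀ H : ℕ, 1 ≤ H → ∀ t : Fin r → ℤ, (∀ i, |t i| ≤ H) →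
      (eval t P).natAbs ≤ C * H ^ P.totalDegree := by
  refine ⟨∑ u ∈ P.support, (P.coeff u).natAbs + 1, Nat.succ_pos _,
    fun H hH t ht => ?_⟩
  rw [eval_eq]
  refine (Int.natAbs_sum_le _ _).trans ?_
  have h1 : ∀ u ∈ P.support, (P.coeff u * ∏ i ∈ u.support, t i ^ u i).natAbs ≤
      (P.coeff u).natAbs * H ^ P.totalDegree := by
    intro u hu
    rw [Int.natAbs_mul]
    refine Nat.mul_le_mul_left _ ?_
    have h2 : (∏ i ∈ u.support, t i ^ u i).natAbs = ∏ i ∈ u.support, (t i).natAbs ^ u i := by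
      have h3 := map_prod Int.natAbsHom (fun i => t i ^ u i) u.support
      simp only [Int.natAbsHom_apply] at h3
      rw [h3]
      exact Finset.prod_congr rfl fun i _ => Int.natAbs_pow _ _
    rw [h2]
    calc ∏ i ∈ u.support, (t i).natAbs ^ u i ≤ ∏ i ∈ u.support, H ^ u i := by
          refine Finset.prod_le_prod' fun i _ => Nat.pow_le_pow_left ?_ _
          have h5 := ht i
          rw [Int.abs_eq_natAbs] at h5
          exact_mod_cast h5
      _ = H ^ (∑ i ∈ u.support, u i) := Finset.prod_pow_eq_pow_sum _ _ _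
      _ ≤ H ^ P.totalDegree := Nat.pow_le_pow_right hH (le_totalDegree hu)
  refine (Finset.sum_le_sum h1).trans ?_
  rw [← Finset.sum_mul]
  exact Nat.mul_le_mul_right _ (Nat.le_succ _)

/-- counting by the values on the lines -/
theorem card_fib (D : MvPolynomial (Fin r) ℤ) (j : Fin r) (hj : 0 < degreeOf j D)
    (c : MvPolynomial {i : Fin r // i ≠ j} ℤ) (hc : c ≠ 0) :
    ∃ C : ℝ, 0 < C ∧ ∀ H : ℕ, 1 ≤ H → ∀ Bad : Finset (Fin r → ℤ), Bad ⊆ box r H → ∀ K : ℝ, 0 ≤ K →
      (∀ w : {i : Fin r // i ≠ j} → ℤ, (∀ i, |w i| ≤ H) → eval w c ≠ 0 → ∃ Sm : Finset ℕ,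
        (Sm.card : ℝ) ≤ K ∧ ∀ t ∈ Bad, (fun i : {i : Fin r // i ≠ j} => t i) = w →
          (eval t D).natAbs ∈ Sm) →
      (Bad.card : ℝ) ≤ C * (1 + K) * (H : ℝ) ^ (r - 1) := by
  classical
  have hr : 1 ≤ r := by
    have := j.2
    omega
  let f := sep j D
  have hfdeg : f.natDegree = degreeOf j D := natDegree_sep j D
  have hf0 : f ≠ 0 := by
    intro h0
    rw [h0, Polynomial.natDegree_zero] at hfdeg
    omega
  have ha : f.leadingCoeff ≠ 0 := Polynomial.leadingCoeff_ne_zero.2 hf0
  let ρ : MvPolynomial {i : Fin r // i ≠ j} ℤ → MvPolynomial (Fin r) ℤ :=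
    fun P => rename Subtype.val P
  have hρ : ∀ P t, eval t (ρ P) = eval (fun i : {i : Fin r // i ≠ j} => t i) P := by
    intro P t
    exact eval_rename _ _ _
  have hρ0 : ∀ P, P ≠ 0 → ρ P ≠ 0 := fun P hP =>
    fun h => hP ((map_eq_zero_iff _ (rename_injective _ Subtype.val_injective)).1 h)
  let P : MvPolynomial (Fin r) ℤ := ρ f.leadingCoeff * ρ c
  have hP0 : P ≠ 0 := mul_ne_zero (hρ0 _ ha) (hρ0 _ hc)
  refine ⟨(P.totalDegree + 2 * f.natDegree + 1) * 3 ^ (r - 1), by positivity,
    fun H hH Bad hBad K hK hS => ?_⟩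
  have hH1 : (1 : ℝ) ≤ H := by exact_mod_cast hH
  have hH0 : (0 : ℝ) < H := by linarith
  have hsplit : Bad.card ≤ ((box r H).filter fun t => eval t P = 0).card +
      (Bad.filter fun t => eval t P ≠ 0).card := by
    rw [← Finset.card_filter_add_card_filter_not (s := Bad) (fun t => eval t P = 0)]
    refine Nat.add_le_add_right (Finset.card_le_card ?_) _
    intro t ht
    rw [Finset.mem_filter] at ht ⊢
    exact ⟨hBad ht.1, ht.2⟩
  have hfib : ∀ s : Fin r → ℤ,
      (((Bad.filter fun t => eval t P ≠ 0).filter fun t => Function.update t j 0 = s).card : ℝ) ≤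
        2 * f.natDegree * K := by
    intro s
    rcases ((Bad.filter fun t => eval t P ≠ 0).filter fun t =>
      Function.update t j 0 = s).eq_empty_or_nonempty with hemp | ⟨t0, ht0⟩
    · rw [hemp, Finset.card_empty, Nat.cast_zero]
      positivity
    rw [Finset.mem_filter, Finset.mem_filter] at ht0
    obtain ⟨⟨ht0b, ht0P⟩, ht0s⟩ := ht0
    let w : {i : Fin r // i ≠ j} → ℤ := fun i => t0 i
    have hres : ∀ t : Fin r → ℤ, Function.update t j 0 = s →
        (fun i : {i : Fin r // i ≠ j} => t i) = w := by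
      intro t ht
      funext i
      have h1 := congrFun (ht.trans ht0s.symm) i
      rwa [Function.update_of_ne i.2, Function.update_of_ne i.2] at h1
    rw [map_mul, hρ, hρ] at ht0P
    have haw : eval w f.leadingCoeff ≠ 0 := fun h => ht0P (by rw [h, zero_mul])
    have hcw : eval w c ≠ 0 := fun h => ht0P (by rw [h, mul_zero])
    let F : Polynomial ℤ := f.map (eval w)
    have hFlc : F.coeff f.natDegree ≠ 0 := by
      rw [Polynomial.coeff_map]
      exact haw
    obtain ⟨Sm, hSm, hval'⟩ := hS w (fun i => mem_box.1 (hBad ht0b) i) hcw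
    have hval : ∀ t ∈ (Bad.filter fun t => eval t P ≠ 0).filter fun t =>
        Function.update t j 0 = s, (F.eval (t j)).natAbs ∈ Sm := by
      intro t ht
      rw [Finset.mem_filter, Finset.mem_filter] at ht
      obtain ⟨⟨htb, -⟩, hts⟩ := ht
      have hev : eval t D = F.eval (t j) := by
        rw [eval_sep j, hres t hts]
      rw [← hev]
      exact hval' t htb (hres t hts)
    have hcard : ((Bad.filter fun t => eval t P ≠ 0).filter fun t =>
        Function.update t j 0 = s).card ≤ (2 * f.natDegree) * Sm.card := by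
      refine Finset.card_le_mul_card_image_of_maps_to hval _ fun v _ => ?_
      let G1 : Polynomial ℤ := F - Polynomial.C (v : ℤ)
      let G2 : Polynomial ℤ := F + Polynomial.C (v : ℤ)
      have hG1c : G1.coeff f.natDegree = F.coeff f.natDegree := by
        rw [Polynomial.coeff_sub, Polynomial.coeff_C, if_neg (by omega), sub_zero]
      have hG2c : G2.coeff f.natDegree = F.coeff f.natDegree := by
        rw [Polynomial.coeff_add, Polynomial.coeff_C, if_neg (by omega), add_zero]
      have hG1 : G1 ≠ 0 := fun h => hFlc (by rw [← hG1c, h, Polynomial.coeff_zero])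
      have hG2 : G2 ≠ 0 := fun h => hFlc (by rw [← hG2c, h, Polynomial.coeff_zero])
      have hFd : F.natDegree ≤ f.natDegree := Polynomial.natDegree_map_le
      have hd1 : G1.natDegree ≤ f.natDegree :=
        (Polynomial.natDegree_sub_C).le.trans hFd
      have hd2 : G2.natDegree ≤ f.natDegree :=
        (Polynomial.natDegree_add_C).le.trans hFd
      calc (((Bad.filter fun t => eval t P ≠ 0).filter fun t =>
            Function.update t j 0 = s).filter fun t => (F.eval (t j)).natAbs = v).card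
          ≤ (G1.roots.toFinset ∪ G2.roots.toFinset).card := by
            refine Finset.card_le_card_of_injOn (fun t => t j) ?_ ?_
            · intro t ht
              rw [Finset.mem_coe, Finset.mem_filter] at ht
              rw [Finset.mem_coe, Finset.mem_union, Multiset.mem_toFinset, Multiset.mem_toFinset,
                Polynomial.mem_roots hG1, Polynomial.mem_roots hG2, Polynomial.IsRoot.def,
                Polynomial.IsRoot.def, Polynomial.eval_sub, Polynomial.eval_add,
                Polynomial.eval_C]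
              rcases Int.natAbs_eq (F.eval (t j)) with h | h
              · left
                rw [h, ht.2, sub_self]
              · right
                rw [h, ht.2, neg_add_cancel]
            · intro t ht t' ht' htt
              rw [Finset.mem_coe, Finset.mem_filter, Finset.mem_filter] at ht ht'
              funext i
              by_cases hi : i = j
              · rw [hi]
                exact htt
              · have h1 := congrFun (ht.1.2.trans ht'.1.2.symm) i
                rwa [Function.update_of_ne hi, Function.update_of_ne hi] at h1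
        _ ≤ G1.roots.toFinset.card + G2.roots.toFinset.card := Finset.card_union_le _ _
        _ ≤ f.natDegree + f.natDegree := by
            refine Nat.add_le_add ?_ ?_
            · exact (Multiset.toFinset_card_le _).trans ((Polynomial.card_roots' _).trans hd1)
            · exact (Multiset.toFinset_card_le _).trans ((Polynomial.card_roots' _).trans hd2)
        _ = 2 * f.natDegree := by ring
    calc ((((Bad.filter fun t => eval t P ≠ 0).filter fun t =>
          Function.update t j 0 = s).card : ℕ) : ℝ) ≤ ((2 * f.natDegree * Sm.card : ℕ) : ℝ) := by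
          exact_mod_cast hcard
      _ = 2 * f.natDegree * (Sm.card : ℝ) := by push_cast; ring
      _ ≤ _ := mul_le_mul_of_nonneg_left hSm (by positivity)
  -- the number of the fibres
  let Bs : Finset (Fin r → ℤ) := Fintype.piFinset fun i : Fin r =>
    if i = j then {0} else Finset.Icc (-(H : ℤ)) H
  have hBs : Bs.card = (2 * H + 1) ^ (r - 1) := by
    rw [Fintype.card_piFinset, ← Finset.mul_prod_erase Finset.univ _ (Finset.mem_univ j),
      if_pos rfl, Finset.card_singleton, one_mul]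
    rw [Finset.prod_congr rfl (g := fun _ => 2 * H + 1) (fun i hi => by
      rw [if_neg (Finset.ne_of_mem_erase hi), Int.card_Icc]
      omega), Finset.prod_const, Finset.card_erase_of_mem (Finset.mem_univ j), Finset.card_univ,
      Fintype.card_fin]
  have hmaps : ∀ t ∈ Bad.filter fun t => eval t P ≠ 0, Function.update t j 0 ∈ Bs := by
    intro t ht
    rw [Finset.mem_filter] at ht
    rw [Fintype.mem_piFinset]
    intro i
    by_cases hi : i = j
    · rw [if_pos hi, hi, Function.update_self, Finset.mem_singleton]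
    · rw [if_neg hi, Function.update_of_ne hi]
      exact Fintype.mem_piFinset.1 (hBad ht.1) i
  have htot : ((Bad.filter fun t => eval t P ≠ 0).card : ℝ) ≤
      (2 * H + 1) ^ (r - 1) * (2 * f.natDegree * K) := by
    rw [Finset.card_eq_sum_card_fiberwise hmaps]
    push_cast
    refine (Finset.sum_le_sum fun s _ => hfib s).trans (le_of_eq ?_)
    rw [Finset.sum_const, hBs, nsmul_eq_mul]
    push_cast
    ring
  have hzero : ((((box r H).filter fun t => eval t P = 0).card : ℕ) : ℝ) ≤
      P.totalDegree * (2 * H + 1) ^ (r - 1) := by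
    exact_mod_cast card_zero P hP0 hr H
  have h2H : ((2 * H + 1 : ℝ)) ^ (r - 1) ≤ 3 ^ (r - 1) * (H : ℝ) ^ (r - 1) := by
    rw [← mul_pow]
    exact pow_le_pow_left₀ (by positivity) (by linarith) _
  have hsum : (Bad.card : ℝ) ≤ P.totalDegree * (2 * H + 1) ^ (r - 1) +
      (2 * H + 1) ^ (r - 1) * (2 * f.natDegree * K) := by
    have h1 : (Bad.card : ℝ) ≤ (((box r H).filter fun t => eval t P = 0).card : ℝ) +
      ((Bad.filter fun t => eval t P ≠ 0).card : ℝ) := by exact_mod_cast hsplit
    linarith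
  refine hsum.trans ?_
  have hpos1 : (0 : ℝ) ≤ P.totalDegree := Nat.cast_nonneg _
  have hpos2 : (0 : ℝ) ≤ 2 * f.natDegree := by positivity
  calc (P.totalDegree : ℝ) * (2 * H + 1) ^ (r - 1) +
      (2 * H + 1) ^ (r - 1) * (2 * f.natDegree * K)
      = (P.totalDegree + 2 * f.natDegree * K) * (2 * H + 1) ^ (r - 1) := by ring
    _ ≤ (P.totalDegree + 2 * f.natDegree * K) *
        (3 ^ (r - 1) * (H : ℝ) ^ (r - 1)) := mul_le_mul_of_nonneg_left h2H (by positivity)
    _ ≤ ((P.totalDegree + 2 * f.natDegree + 1) * (1 + K)) *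
        (3 ^ (r - 1) * (H : ℝ) ^ (r - 1)) := by
        refine mul_le_mul_of_nonneg_right ?_ (by positivity)
        nlinarith [mul_nonneg hpos1 hK]
    _ = _ := by ring

/-- The points of a box at which the value of `D` is a `u`-th power, `u ≥ U`, up to the prime factors
which are at most `Q` or divide the value of `c` or a number at most `R`. -/
theorem card_pow (D : MvPolynomial (Fin r) ℤ) (j : Fin r) (hj : 0 < degreeOf j D)
    (c : MvPolynomial {i : Fin r // i ≠ j} ℤ) (hc : c ≠ 0) (Q U : ℕ) (hU : 1 ≤ U) (ε : ℝ)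
    (hε : 0 < ε) :
    ∃ C : ℝ, 0 < C ∧ ∀ H : ℕ, 1 ≤ H → ∀ R : ℕ, 1 ≤ R → ∀ Bad : Finset (Fin r → ℤ), Bad ⊆ box r H →
      (∀ t ∈ Bad, eval t D ≠ 0 ∧ ∃ u, U ≤ u ∧ ∃ m, 1 ≤ m ∧ m ≤ R ∧ ∀ q : ℕ, q.Prime → Q < q →
        ¬ (q : ℤ) ∣ eval (fun i : {i : Fin r // i ≠ j} => t i) c → ¬ q ∣ m →
          u ∣ (eval t D).natAbs.factorization q) →
      (Bad.card : ℝ) ≤
        C * (R : ℝ) ^ (1 + ε) * (H : ℝ) ^ ((r : ℝ) - 1 + D.totalDegree / (U : ℝ) + ε) := by
  classical
  have hr : 1 ≤ r := by
    have := j.2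
    omega
  obtain ⟨C0, hC0, hfib⟩ := card_fib D j hj c hc
  obtain ⟨C1, hC1, hsize1⟩ := eval_le' D
  obtain ⟨C2, hC2, hsize2⟩ := eval_le' (rename Subtype.val c : MvPolynomial (Fin r) ℤ)
  obtain ⟨a1, ha1⟩ : ∃ a1, a1 = D.totalDegree := ⟨_, rfl⟩
  obtain ⟨a2, ha2⟩ : ∃ a2, a2 = (rename Subtype.val c : MvPolynomial (Fin r) ℤ).totalDegree :=
    ⟨_, rfl⟩
  rw [← ha1] at hsize1 ⊢
  rw [← ha2] at hsize2
  let ε' : ℝ := ε / (a1 + a2 + 1)
  have hε' : 0 < ε' := by positivity
  have hε'1 : ε' ≤ ε := by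
    refine div_le_self hε.le ?_
    have h1 : (0 : ℝ) ≤ a1 := Nat.cast_nonneg _
    have h2 : (0 : ℝ) ≤ a2 := Nat.cast_nonneg _
    linarith
  obtain ⟨D1, hD1, hpow⟩ := pow_count ε' hε'
  let K0 : ℝ := D1 * (C1 : ℝ) ^ (1 / (U : ℝ) + ε') * ((Q.factorial * C2 : ℕ) : ℝ) ^ ε'
  have hC1' : (0 : ℝ) < C1 := by exact_mod_cast hC1
  have hQC : (0 : ℝ) < ((Q.factorial * C2 : ℕ) : ℝ) := by
    exact_mod_cast Nat.mul_pos (Nat.factorial_pos _) hC2
  have hK0 : 0 < K0 := by positivity
  refine ⟨C0 * (1 + K0), by positivity, fun H hH R hR Bad hBad hbad => ?_⟩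
  have hH1 : (1 : ℝ) ≤ H := by exact_mod_cast hH
  have hH0 : (0 : ℝ) < H := by linarith
  have hR1 : (1 : ℝ) ≤ R := by exact_mod_cast hR
  have hR0 : (0 : ℝ) < R := by linarith
  obtain ⟨K, hKdef⟩ : ∃ K, K = K0 * (R : ℝ) ^ (1 + ε) * (H : ℝ) ^ (a1 / (U : ℝ) + ε) := ⟨_, rfl⟩
  have hK : 0 ≤ K := by
    rw [hKdef]
    positivity
  have key := hfib H hH Bad hBad K hK fun w hw hcw => by
    have hcsize : (eval w c).natAbs ≤ C2 * H ^ a2 := by
      let t0 : Fin r → ℤ := fun i => if h : i ≠ j then w ⟨i, h⟩ else 0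
      have h1 := hsize2 H hH t0 (fun i => by
        by_cases h : i ≠ j
        · simp only [t0, dif_pos h]
          exact hw _
        · simp only [t0, dif_neg h]
          rw [abs_zero]
          exact Nat.cast_nonneg _)
      rw [eval_rename] at h1
      have h2 : t0 ∘ Subtype.val = w := by
        funext i
        simp only [Function.comp_apply, t0, dif_pos i.2]
      rwa [h2] at h1
    let Rn : ℕ := Q.factorial * (eval w c).natAbs
    have hRn : 1 ≤ Rn := Nat.mul_pos (Nat.factorial_pos _) (Int.natAbs_pos.2 hcw)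
    have hX : 1 ≤ C1 * H ^ a1 := Nat.mul_pos hC1 (by positivity)
    obtain ⟨Sm, hSm, hSmem⟩ := hpow U (C1 * H ^ a1) Rn R hU hX hRn hR
    refine ⟨Sm, hSm.trans ?_, fun t ht htw => ?_⟩
    · have h2 : ((C1 * H ^ a1 : ℕ) : ℝ) ^ (1 / (U : ℝ) + ε') =
          (C1 : ℝ) ^ (1 / (U : ℝ) + ε') * (H : ℝ) ^ (a1 * (1 / (U : ℝ) + ε')) := by
        push_cast
        rw [Real.mul_rpow (by positivity) (by positivity), ← Real.rpow_natCast (H : ℝ) a1,
          ← Real.rpow_mul hH0.le]
      have h3 : ((Rn : ℕ) : ℝ) ^ ε' ≤ ((Q.factorial * C2 : ℕ) : ℝ) ^ ε' * (H : ℝ) ^ (a2 * ε') := by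
        have h4 : ((Rn : ℕ) : ℝ) ≤ ((Q.factorial * C2 : ℕ) : ℝ) * (H : ℝ) ^ a2 := by
          have h5 : Rn ≤ Q.factorial * C2 * H ^ a2 := by
            rw [mul_assoc]
            exact Nat.mul_le_mul_left _ hcsize
          exact_mod_cast h5
        refine (Real.rpow_le_rpow (by positivity) h4 hε'.le).trans (le_of_eq ?_)
        rw [Real.mul_rpow (by positivity) (by positivity), ← Real.rpow_natCast (H : ℝ) a2,
          ← Real.rpow_mul hH0.le]
      rw [h2, hKdef]
      have h6 : (R : ℝ) ^ (1 + ε') ≤ (R : ℝ) ^ (1 + ε) :=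
        Real.rpow_le_rpow_of_exponent_le hR1 (by linarith)
      calc D1 * (R : ℝ) ^ (1 + ε') * ((C1 : ℝ) ^ (1 / (U : ℝ) + ε') *
            (H : ℝ) ^ (a1 * (1 / (U : ℝ) + ε'))) * (Rn : ℝ) ^ ε'
          ≤ D1 * (R : ℝ) ^ (1 + ε) * ((C1 : ℝ) ^ (1 / (U : ℝ) + ε') *
            (H : ℝ) ^ (a1 * (1 / (U : ℝ) + ε'))) *
            (((Q.factorial * C2 : ℕ) : ℝ) ^ ε' * (H : ℝ) ^ (a2 * ε')) := by
            refine mul_le_mul (mul_le_mul_of_nonneg_right (mul_le_mul_of_nonneg_left h6
              (by positivity)) (by positivity)) h3 (by positivity) (by positivity)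
        _ = K0 * (R : ℝ) ^ (1 + ε) * (H : ℝ) ^ (a1 * (1 / (U : ℝ) + ε') + a2 * ε') := by
            rw [Real.rpow_add hH0]
            ring
        _ ≤ K0 * (R : ℝ) ^ (1 + ε) * (H : ℝ) ^ (a1 / (U : ℝ) + ε) := by
            refine mul_le_mul_of_nonneg_left (Real.rpow_le_rpow_of_exponent_le hH1 ?_)
              (by positivity)
            have h7 : a1 * ε' + a2 * ε' + ε' = ε := by
              simp only [ε']
              field_simp
            have h8 : (a1 : ℝ) * (1 / (U : ℝ) + ε') = a1 / (U : ℝ) + a1 * ε' := by ring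
            rw [h8]
            linarith
    · obtain ⟨h0, u, hu, m, hm1, hmR, h⟩ := hbad t ht
      refine hSmem _ (Int.natAbs_pos.2 h0) (hsize1 H hH t (mem_box.1 (hBad ht)))
        ⟨u, hu, m, hm1, hmR, fun q hq hqN => ?_⟩
      refine h q hq ?_ ?_ ?_
      · by_contra hcon
        push Not at hcon
        exact hqN (dvd_mul_of_dvd_left (dvd_mul_of_dvd_left
          ((Nat.Prime.dvd_factorial hq).2 hcon) _) _)
      · intro hd
        rw [htw] at hd
        exact hqN (dvd_mul_of_dvd_left (dvd_mul_of_dvd_right (Int.natCast_dvd.1 hd) _) _)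
      · intro hd
        exact hqN (dvd_mul_of_dvd_right hd _)
  refine key.trans ?_
  have hexp : (H : ℝ) ^ ((r : ℝ) - 1 + a1 / (U : ℝ) + ε) =
      (H : ℝ) ^ (a1 / (U : ℝ) + ε) * (H : ℝ) ^ (r - 1) := by
    rw [← Real.rpow_natCast, ← Real.rpow_add hH0]
    congr 1
    rw [Nat.cast_sub hr, Nat.cast_one]
    ring
  rw [hexp]
  have h9 : (1 : ℝ) ≤ (R : ℝ) ^ (1 + ε) * (H : ℝ) ^ (a1 / (U : ℝ) + ε) :=
    one_le_mul_of_one_le_of_one_le (Real.one_le_rpow hR1 (by linarith))
      (Real.one_le_rpow hH1 (by positivity))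
  calc C0 * (1 + K) * (H : ℝ) ^ (r - 1)
      ≤ C0 * ((1 + K0) * ((R : ℝ) ^ (1 + ε) * (H : ℝ) ^ (a1 / (U : ℝ) + ε))) *
        (H : ℝ) ^ (r - 1) := by
        refine mul_le_mul_of_nonneg_right (mul_le_mul_of_nonneg_left ?_ hC0.le) (by positivity)
        rw [hKdef]
        nlinarith
    _ = _ := by ring

end Pool.Agent.Q170.FZ
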