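import Pool.Agent.Y673.FM.Fam
import Pool.Agent.Q170.FZ.Fib

/-!
Congruences between the members of two families at a prime dividing the denominator of one of the
invariants (helper file).
-/

set_option autoImplicit false

namespace Pool.Agent.Q170.FZ

open NumberField IsDedekindDomain Pool.Agent.Y673.Loc Pool.Agent.Y673.FM

section place

variable {L : Type} [Field L] [NumberField L]

/-- a place above a prime number -/
theorem exists_over (L : Type) [Field L] [NumberField L] {q : ℕ} (hq : q.Prime) :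
    ∃ v : HeightOneSpectrum (𝓞 L), (q : 𝓞 L) ∈ v.asIdeal := by
  have hq' : Prime (q : ℤ) := Nat.prime_iff_prime_int.1 hq
  have hmax : (Ideal.span {(q : ℤ)}).IsMaximal :=
    PrincipalIdealRing.isMaximal_of_irreducible hq'.irreducible
  obtain ⟨⟨P, hP, hPv⟩⟩ := (inferInstance : Nonempty (Ideal.primesOver (Ideal.span {(q : ℤ)}) (𝓞 L)))
  have hbot : Ideal.span {(q : ℤ)} ≠ ⊥ := by
    rw [Ne, Ideal.span_singleton_eq_bot]
    exact hq'.ne_zero
  have hP0 : P ≠ ⊥ := Ideal.ne_bot_of_liesOver_of_ne_bot hbot P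
  refine ⟨⟨P, hP, hP0⟩, ?_⟩
  have h1 : (q : ℤ) ∈ Ideal.span {(q : ℤ)} := Ideal.mem_span_singleton_self _
  rw [hPv.over, Ideal.under_def, Ideal.mem_comap] at h1
  have h2 : algebraMap ℤ (𝓞 L) (q : ℤ) = (q : 𝓞 L) := by simp
  rw [h2] at h1
  exact h1

variable (v : HeightOneSpectrum (𝓞 L)) {q : ℕ} (hq : q.Prime) (hqv : (q : 𝓞 L) ∈ v.asIdeal)

include hq hqv

/-- an integer prime to `q` is a unit at a place above `q` -/
theorem adv_unit {x : ℤ} (hx : ¬ (q : ℤ) ∣ x) : (adv L v).E 0 (x : L) := by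
  have hx0 : x ≠ 0 := by
    rintro rfl
    exact hx (dvd_zero _)
  have hx0' : (x : 𝓞 L) ≠ 0 := Int.cast_ne_zero.2 hx0
  have e : algebraMap (𝓞 L) L (x : 𝓞 L) = (x : L) := map_intCast _ x
  refine ⟨Int.cast_ne_zero.2 hx0, ?_⟩
  have h1 := adv_nonneg L v (x : 𝓞 L) hx0'
  rw [e] at h1
  by_contra hne
  have h2 : ((1 : ℕ) : ℤ) ≤ (adv L v).v (algebraMap (𝓞 L) L (x : 𝓞 L)) := by
    rw [e]
    push_cast
    omega
  rw [le_adv_iff L v _ hx0', pow_one] at h2
  have hcop : IsCoprime (q : ℤ) x :=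
    (Nat.prime_iff_prime_int.1 hq).irreducible.coprime_iff_not_dvd.2 hx
  obtain ⟨a, b, hab⟩ := hcop
  apply v.isPrime.ne_top
  rw [Ideal.eq_top_iff_one]
  have h3 : (a : 𝓞 L) * (q : 𝓞 L) + (b : 𝓞 L) * (x : 𝓞 L) = 1 := by exact_mod_cast congrArg (Int.cast : ℤ → 𝓞 L) hab
  rw [← h3]
  exact add_mem (Ideal.mul_mem_left _ _ hqv) (Ideal.mul_mem_left _ _ h2)

theorem adv_pos : 1 ≤ (adv L v).v (q : L) := by
  have hq0 : (q : 𝓞 L) ≠ 0 := Nat.cast_ne_zero.2 hq.ne_zero
  have e : algebraMap (𝓞 L) L (q : 𝓞 L) = (q : L) := map_natCast _ q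
  have h := (le_adv_iff L v (q : 𝓞 L) hq0 1).2 (by rw [pow_one]; exact hqv)
  rw [e] at h
  exact_mod_cast h

/-- the valuation of an integer -/
theorem adv_int {x : ℤ} (hx : x ≠ 0) :
    (adv L v).E ((adv L v).v (q : L) * (x.natAbs.factorization q : ℕ)) (x : L) := by
  have hn : x.natAbs ≠ 0 := Int.natAbs_ne_zero.2 hx
  have hxn := Int.natAbs_eq x
  generalize x.natAbs = n at hn hxn ⊢
  obtain ⟨f, hf⟩ : ∃ f, f = n.factorization q := ⟨_, rfl⟩
  obtain ⟨m, hm⟩ : ∃ m, m = n / q ^ f := ⟨_, rfl⟩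
  have h1 : q ^ f * m = n := by
    rw [hm, hf]
    exact Nat.ordProj_mul_ordCompl_eq_self n q
  have h2 : ¬ (q : ℤ) ∣ (m : ℤ) := by
    intro h
    rw [hm, hf] at h
    exact Nat.not_dvd_ordCompl hq hn (by exact_mod_cast h)
  have h3 := adv_unit v hq hqv h2
  have hqE : (adv L v).E ((adv L v).v (q : L)) (q : L) :=
    ⟨Nat.cast_ne_zero.2 hq.ne_zero, rfl⟩
  have h4 := (hqE.pow f).mul h3
  rw [add_zero, mul_comm] at h4
  have h5 : (q : L) ^ f * ((m : ℤ) : L) = (n : L) := by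
    rw [← h1]
    push_cast
    rfl
  rw [h5] at h4
  rw [← hf]
  rcases hxn with h | h
  · rw [h, Int.cast_natCast]
    exact h4
  · rw [h, Int.cast_neg, Int.cast_natCast]
    exact h4.neg

end place

/-- the local theorem, for two invariants which are rational numbers -/
theorem link {L : Type} [Field L] [NumberField L] {p : ℕ} (hp : p.Prime) (hp13 : 13 ≤ p)
    (hL : Module.finrank ℚ L < p) (A B A' B' : L) (hD : 4 * A ^ 3 + 27 * B ^ 2 ≠ 0)
    (hD' : 4 * A' ^ 3 + 27 * B' ^ 2 ≠ 0) (hF : SameF A B A' B' p) {a b a' b' : ℤ}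
    (hj : jv A B = (a : L) / b) (hj' : jv A' B' = (a' : L) / b') (hb : b ≠ 0) {q : ℕ}
    (hq : q.Prime) (hq3 : 3 < q) (hqb : (q : ℤ) ∣ b) (hqa : ¬ (q : ℤ) ∣ a)
    (hqb' : ¬ (q : ℤ) ∣ b') : p ∣ b.natAbs.factorization q := by
  obtain ⟨v, hqv⟩ := exists_over L hq
  have hq2 : ¬ (q : ℤ) ∣ 2 := fun h => by
    have := Int.le_of_dvd (by norm_num) h
    omega
  have hq3' : ¬ (q : ℤ) ∣ 3 := fun h => by
    have := Int.le_of_dvd (by norm_num) h
    omega
  have h2 := (adv_unit v hq hqv hq2).2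
  have h3 := (adv_unit v hq hqv hq3').2
  push_cast at h2 h3
  have he1 := adv_pos v hq hqv
  have he2 := v_prime_le v hq
  have hpv := v_prime_le v hp
  have hbE := adv_int v hq hqv hb
  have haE := adv_unit v hq hqv hqa
  have hb'E := adv_unit v hq hqv hqb'
  obtain ⟨f, hf⟩ : ∃ f, f = b.natAbs.factorization q := ⟨_, rfl⟩
  have hf1 : 1 ≤ f := by
    rw [hf]
    exact hq.factorization_pos_of_dvd (Int.natAbs_ne_zero.2 hb) (Int.natCast_dvd.1 hqb)
  rw [← hf] at hbE ⊢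
  have hjE := haE.div hbE
  rw [← hj, zero_sub] at hjE
  have hG : (adv L v).G 0 (jv A' B') := by
    rw [hj']
    have h6 : (adv L v).G 0 (a' : L) := by
      by_cases ha0 : a' = 0
      · left
        rw [ha0, Int.cast_zero]
      · right
        rw [(adv_int v hq hqv ha0).2]
        positivity
    have h7 := h6.div hb'E
    rwa [sub_zero] at h7
  have hneg : (adv L v).v (jv A B) < 0 := by
    rw [hjE.2]
    have h8 : (1 : ℤ) ≤ (adv L v).v (q : L) * (f : ℤ) := by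
      have h9 : (1 : ℤ) ≤ f := by exact_mod_cast hf1
      nlinarith
    omega
  have hvp : 8 * (adv L v).v (p : L) < (p : ℤ) ^ 2 - 1 := by
    have h10 : ((Module.finrank ℚ L : ℕ) : ℤ) < p := by exact_mod_cast hL
    have h11 : (13 : ℤ) ≤ p := by exact_mod_cast hp13
    nlinarith
  have hdvd := loc A B A' B' hD hD' hp hp13 hF v h2 h3 hvp hneg hG
  rw [hjE.2, dvd_neg] at hdvd
  have hpp : Prime (p : ℤ) := Nat.prime_iff_prime_int.1 hp
  rcases hpp.dvd_or_dvd hdvd with h12 | h12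
  · exfalso
    have h13 := Int.le_of_dvd (by omega) h12
    have h10 : ((Module.finrank ℚ L : ℕ) : ℤ) < p := by exact_mod_cast hL
    omega
  · exact_mod_cast h12

end Pool.Agent.Q170.FZ
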