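import Pool.Agent.Q170.FZ.Link

/-!
Congruences between the members of two families with several parameters (helper file).
-/

set_option autoImplicit false

namespace Pool.Agent.Q170.FZ

open NumberField IsDedekindDomain Pool.Agent.Y673.Loc Pool.Agent.Y673.FM MvPolynomial
open Pool.Agent.Q170.ZP.Count

variable {r : ℕ}

/-- a variable which occurs in a polynomial -/
theorem exists_var (D : MvPolynomial (Fin r) ℤ) (hD : 0 < D.totalDegree) :
    ∃ j, 0 < degreeOf j D := by
  by_contra hcon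
  push Not at hcon
  have h1 : ∀ u ∈ D.support, u = 0 := by
    intro u hu
    ext i
    have h2 := monomial_le_degreeOf i hu
    have h3 := hcon i
    rw [Finsupp.zero_apply]
    omega
  have h2 : D.totalDegree = 0 := by
    rw [totalDegree_eq_zero_iff]
    intro u hu i
    rw [h1 u hu, Finsupp.zero_apply]
  omega

/-- the Bezout relation at integral points -/
theorem exists_res (D E : MvPolynomial (Fin r) ℤ) (hrel : IsRelPrime D E) (j : Fin r) :
    ∃ c : MvPolynomial {i : Fin r // i ≠ j} ℤ, c ≠ 0 ∧ ∀ (t : Fin r → ℤ) (q : ℕ),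
      ¬ (q : ℤ) ∣ eval (fun i : {i : Fin r // i ≠ j} => t i) c → (q : ℤ) ∣ eval t D →
        ¬ (q : ℤ) ∣ eval t E := by
  have hfg : IsRelPrime (sep j D) (sep j E) := by
    intro d hdf hdg
    have h1 : (sep j).symm d ∣ D := by
      have := map_dvd (sep j).symm hdf
      rwa [AlgEquiv.symm_apply_apply] at this
    have h2 : (sep j).symm d ∣ E := by
      have := map_dvd (sep j).symm hdg
      rwa [AlgEquiv.symm_apply_apply] at this
    have h3 := (hrel h1 h2).map (sep j)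
    rwa [AlgEquiv.apply_symm_apply] at h3
  obtain ⟨c, A, B, hc, hAB⟩ := bezout (sep j D) (sep j E) hfg
  refine ⟨c, hc, fun t q hqc hqD hqE => hqc ?_⟩
  have h1 := congrArg (fun p : Polynomial (MvPolynomial {i : Fin r // i ≠ j} ℤ) =>
    (p.map (eval fun i : {i : Fin r // i ≠ j} => t i)).eval (t j)) hAB
  simp only [Polynomial.map_add, Polynomial.map_mul, Polynomial.eval_add,
    Polynomial.eval_mul, Polynomial.map_C, Polynomial.eval_C] at h1
  rw [← eval_sep j, ← eval_sep j] at h1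
  rw [← h1]
  exact dvd_add (dvd_mul_of_dvd_right hqD _) (dvd_mul_of_dvd_right hqE _)

/-- `a/b` and `a'/b'` are the invariants of two elliptic curves with the same `p`-division field over
a number field of degree less than `p`, for some prime `p ≥ N`. -/
def Cong (N : ℕ) (a b a' b' : ℤ) : Prop :=
  ∃ p : ℕ, p.Prime ∧ N ≤ p ∧ ∃ (L : Type) (_ : Field L) (_ : NumberField L),
    Module.finrank ℚ L < p ∧ ∃ A B A' B' : L, 4 * A ^ 3 + 27 * B ^ 2 ≠ 0 ∧
      4 * A' ^ 3 + 27 * B' ^ 2 ≠ 0 ∧ jv A B = (a : L) / b ∧ jv A' B' = (a' : L) / b' ∧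
      SameF A B A' B' p

/-- Congruences between the members of two families. -/
theorem pairs (F G F' G' P : MvPolynomial (Fin r) ℤ) (hP : Irreducible P)
    (hPd : 0 < P.totalDegree) (w : ℕ) (hw : 1 ≤ w) (hw1 : P ^ w ∣ G) (hw2 : ¬ P ^ (w + 1) ∣ G)
    (hPF : ¬ P ∣ F) (hPG' : ¬ P ∣ G') (N : ℕ) (hN : 13 ≤ N) (hwN : w < N) (ε : ℝ) (hε : 0 < ε) :
    ∃ C : ℝ, 0 < C ∧ ∀ H : ℕ, 1 ≤ H → ∀ Bad : Finset (Fin r → ℤ), Bad ⊆ box r H →
      (∀ t ∈ Bad, eval t G ≠ 0 ∧ eval t G' ≠ 0 ∧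
        Cong N (eval t F) (eval t G) (eval t F') (eval t G')) →
      (Bad.card : ℝ) ≤ C * (H : ℝ) ^ ((r : ℝ) - 1 + P.totalDegree / (N : ℝ) + ε) := by
  classical
  obtain ⟨G₁, rfl⟩ := hw1
  have hPp : Prime P := UniqueFactorizationMonoid.irreducible_iff_prime.1 hP
  have hPG₁ : ¬ P ∣ G₁ := by
    rintro ⟨G₂, rfl⟩
    exact hw2 ⟨G₂, by ring⟩
  have hrel : IsRelPrime P (F * G₁ * G') := by
    rw [hP.isRelPrime_iff_not_dvd]
    intro h
    rcases hPp.dvd_or_dvd h with h | h
    · rcases hPp.dvd_or_dvd h with h | h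
      · exact hPF h
      · exact hPG₁ h
    · exact hPG' h
  obtain ⟨j, hj⟩ := exists_var P hPd
  obtain ⟨c, hc, hres⟩ := exists_res P _ hrel j
  obtain ⟨C, hC, hcard⟩ := card_pow P j hj c hc 3 N (by omega) ε hε
  refine ⟨C, hC, fun H hH Bad hBad hbad => ?_⟩
  have h := hcard H hH 1 le_rfl Bad hBad fun t ht => by
    obtain ⟨hG, hG', p, hp, hNp, L, iF, iN, hL, A, B, A', B', hD, hD', hj1, hj2, hF⟩ := hbad t ht
    rw [map_mul, map_pow] at hG
    have hP0 : eval t P ≠ 0 := by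
      intro h0
      rw [h0, zero_pow (by omega), zero_mul] at hG
      exact hG rfl
    refine ⟨hP0, p, hNp, 1, le_rfl, le_rfl, fun q hq hq3 hqc _ => ?_⟩
    by_cases hqP : (q : ℤ) ∣ eval t P
    swap
    · rw [Nat.factorization_eq_zero_of_not_dvd fun h => hqP (Int.natCast_dvd.2 h)]
      exact dvd_zero _
    have hE := hres t q hqc hqP
    rw [map_mul, map_mul] at hE
    have hqF : ¬ (q : ℤ) ∣ eval t F := fun h =>
      hE (dvd_mul_of_dvd_left (dvd_mul_of_dvd_left h _) _)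
    have hqG₁ : ¬ (q : ℤ) ∣ eval t G₁ := fun h =>
      hE (dvd_mul_of_dvd_left (dvd_mul_of_dvd_right h _) _)
    have hqG' : ¬ (q : ℤ) ∣ eval t G' := fun h => hE (dvd_mul_of_dvd_right h _)
    have h1 := link hp (hN.trans hNp) hL A B A' B' hD hD' hF hj1 hj2 (by
      rw [map_mul, map_pow]
      exact hG) hq hq3 (by
      rw [map_mul, map_pow]
      exact dvd_mul_of_dvd_left (dvd_pow hqP (by omega)) _) hqF hqG'
    rw [map_mul, map_pow, Int.natAbs_mul, Int.natAbs_pow] at h1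
    have hn1 : (eval t P).natAbs ^ w ≠ 0 := pow_ne_zero _ (Int.natAbs_ne_zero.2 hP0)
    have hn2 : (eval t G₁).natAbs ≠ 0 := Int.natAbs_ne_zero.2 (right_ne_zero_of_mul hG)
    rw [Nat.factorization_mul hn1 hn2, Nat.factorization_pow, Finsupp.add_apply,
      Finsupp.smul_apply, smul_eq_mul,
      Nat.factorization_eq_zero_of_not_dvd fun h => hqG₁ (Int.natCast_dvd.2 h), add_zero] at h1
    rcases (hp.dvd_mul).1 h1 with h2 | h2
    · have := Nat.le_of_dvd hw h2
      omega
    · exact h2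
  rwa [Nat.cast_one, Real.one_rpow, mul_one] at h

end Pool.Agent.Q170.FZ
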