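import Pool.Agent.Q170.ZP.MultiCount

/-!
Integral points of a box at which the value of a polynomial is a high power times a number with given
prime factors (helper file; the second part is adapted from `Pool.Agent.Q170.FP.card_core`).
-/

set_option autoImplicit false

namespace Pool.Agent.Q170.FZ

open MvPolynomial
open Pool.Agent.Q170.ZP.Count

/-- the decomposition into a power and a smooth number -/
theorem decomp {x N u : ℕ} (hx : x ≠ 0) (hN : N ≠ 0) (hu : u ≠ 0)
    (h : ∀ q : ℕ, q.Prime → ¬ q ∣ N → u ∣ x.factorization q) :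
    ∃ b z : ℕ, 1 ≤ b ∧ 1 ≤ z ∧ x = b ^ u * z ∧ z.primeFactors ⊆ N.primeFactors := by
  classical
  let S := x.primeFactors
  refine ⟨∏ q ∈ S.filter (fun q => ¬ q ∣ N), q ^ (x.factorization q / u),
    ∏ q ∈ S.filter (fun q => q ∣ N), q ^ x.factorization q, ?_, ?_, ?_, ?_⟩
  · exact Nat.succ_le_of_lt (Finset.prod_pos fun q hq =>
      pow_pos (Nat.prime_of_mem_primeFactors (Finset.mem_filter.1 hq).1).pos _)
  · exact Nat.succ_le_of_lt (Finset.prod_pos fun q hq =>
      pow_pos (Nat.prime_of_mem_primeFactors (Finset.mem_filter.1 hq).1).pos _)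
  · have h1 : x = ∏ q ∈ S, q ^ x.factorization q := by
      conv_lhs => rw [← Nat.prod_factorization_pow_eq_self hx]
      rfl
    conv_lhs => rw [h1]
    rw [← Finset.prod_filter_mul_prod_filter_not S (fun q => ¬ q ∣ N), ← Finset.prod_pow]
    congr 1
    · refine Finset.prod_congr rfl fun q hq => ?_
      obtain ⟨hq1, hq2⟩ := Finset.mem_filter.1 hq
      rw [← pow_mul, Nat.div_mul_cancel (h q (Nat.prime_of_mem_primeFactors hq1) hq2)]
    · refine Finset.prod_congr ?_ fun _ _ => rfl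
      ext q
      simp only [Finset.mem_filter, not_not]
  · intro p hp
    have hpp := Nat.prime_of_mem_primeFactors hp
    obtain ⟨q, hq, hpq⟩ := (hpp.prime.dvd_finsetProd_iff _).1 (Nat.dvd_of_mem_primeFactors hp)
    obtain ⟨hq1, hq2⟩ := Finset.mem_filter.1 hq
    have hqp := Nat.prime_of_mem_primeFactors hq1
    have h2 : p = q := (Nat.prime_dvd_prime_iff_eq hpp hqp).1 (hpp.dvd_of_dvd_pow hpq)
    rw [Nat.mem_primeFactors]
    exact ⟨hpp, h2 ▸ hq2, hN⟩

/-- the numbers which are high powers up to given prime factors -/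
theorem pow_count (ε : ℝ) (hε : 0 < ε) : ∃ C : ℝ, 0 < C ∧ ∀ U X Rn R : ℕ, 1 ≤ U → 1 ≤ X →
    1 ≤ Rn → 1 ≤ R → ∃ Sm : Finset ℕ, (Sm.card : ℝ) ≤
      C * (R : ℝ) ^ (1 + ε) * (X : ℝ) ^ (1 / (U : ℝ) + ε) * (Rn : ℝ) ^ ε ∧
      ∀ x : ℕ, 1 ≤ x → x ≤ X → (∃ u, U ≤ u ∧ ∃ m, 1 ≤ m ∧ m ≤ R ∧
        ∀ q : ℕ, q.Prime → ¬ q ∣ Rn * m → u ∣ x.factorization q) → x ∈ Sm := by
  classical
  have hε' : 0 < ε / 2 := by positivity
  obtain ⟨D1, hD1, hsm⟩ := Pool.Agent.TH867.SR.smooth_count (ε / 2) hε'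
  have hlog2 : (0 : ℝ) < Real.log 2 := Real.log_pos one_lt_two
  refine ⟨(1 / ((ε / 2) * Real.log 2) + 1) * D1, by positivity, fun U X Rn R hU hX hRn hR => ?_⟩
  let B : ℕ := ⌊(X : ℝ) ^ (1 / (U : ℝ))⌋₊
  let Sx : ℕ → Finset ℕ := fun m => (Finset.Icc 1 X).filter fun a =>
    a.primeFactors ⊆ (Rn * m).primeFactors
  let Sm : Finset ℕ := (Finset.Icc 1 R).biUnion fun m => (Finset.range (Nat.log 2 X + 1)).biUnion
    fun k => ((Finset.Icc 1 B) ×ˢ (Sx m)).image fun y => y.1 ^ (U + k) * y.2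
  have hX1 : (1 : ℝ) ≤ X := by exact_mod_cast hX
  have hX0 : (0 : ℝ) < X := by linarith
  have hR1 : (1 : ℝ) ≤ R := by exact_mod_cast hR
  have hR0 : (0 : ℝ) < R := by linarith
  have hRn1 : (1 : ℝ) ≤ Rn := by exact_mod_cast hRn
  have hRn0 : (0 : ℝ) < Rn := by linarith
  have hB : (B : ℝ) ≤ (X : ℝ) ^ (1 / (U : ℝ)) := Nat.floor_le (by positivity)
  refine ⟨Sm, ?_, ?_⟩
  · have h1 : (Sm.card : ℝ) ≤ ∑ m ∈ Finset.Icc 1 R, ∑ _k ∈ Finset.range (Nat.log 2 X + 1),
        ((X : ℝ) ^ (1 / (U : ℝ)) * (D1 * (X : ℝ) ^ (ε / 2) * ((Rn : ℝ) * R) ^ (ε / 2))) := by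
      have h2 : Sm.card ≤ ∑ m ∈ Finset.Icc 1 R, ∑ k ∈ Finset.range (Nat.log 2 X + 1),
          B * (Sx m).card := by
        refine Finset.card_biUnion_le.trans (Finset.sum_le_sum fun m _ => ?_)
        refine Finset.card_biUnion_le.trans (Finset.sum_le_sum fun k _ => ?_)
        refine Finset.card_image_le.trans ?_
        rw [Finset.card_product, Nat.card_Icc, Nat.add_sub_cancel]
      have h3 : (Sm.card : ℝ) ≤ ∑ m ∈ Finset.Icc 1 R, ∑ k ∈ Finset.range (Nat.log 2 X + 1),
          ((B : ℝ) * (Sx m).card) := by exact_mod_cast h2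
      refine h3.trans (Finset.sum_le_sum fun m hm => Finset.sum_le_sum fun k _ => ?_)
      obtain ⟨hm1, hm2⟩ := Finset.mem_Icc.1 hm
      refine mul_le_mul hB ?_ (by positivity) (by positivity)
      refine (hsm X (Rn * m) hX (Nat.mul_pos hRn hm1)).trans ?_
      refine mul_le_mul_of_nonneg_left ?_ (by positivity)
      refine Real.rpow_le_rpow (by positivity) ?_ hε'.le
      have h4 : (m : ℝ) ≤ R := by exact_mod_cast hm2
      push_cast
      exact mul_le_mul_of_nonneg_left h4 hRn0.le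
    rw [Finset.sum_const, Finset.sum_const, Nat.card_Icc, Finset.card_range, nsmul_eq_mul,
      nsmul_eq_mul, Nat.add_sub_cancel] at h1
    refine h1.trans ?_
    have hlog : ((Nat.log 2 X + 1 : ℕ) : ℝ) ≤
        (1 / ((ε / 2) * Real.log 2) + 1) * (X : ℝ) ^ (ε / 2) := by
      have h5 : ((Nat.log 2 X : ℕ) : ℝ) ≤ Real.logb 2 X := by
        have := Real.natLog_le_logb X 2
        exact_mod_cast this
      have h6 : Real.log X ≤ (X : ℝ) ^ (ε / 2) / (ε / 2) := Real.log_le_rpow_div hX0.le hε'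
      have h7 : Real.logb 2 X ≤ (1 / ((ε / 2) * Real.log 2)) * (X : ℝ) ^ (ε / 2) := by
        rw [Real.logb, div_le_iff₀ hlog2]
        refine h6.trans (le_of_eq ?_)
        field_simp
      have h8 : (1 : ℝ) ≤ (X : ℝ) ^ (ε / 2) := Real.one_le_rpow hX1 hε'.le
      push_cast
      rw [add_mul, one_mul]
      linarith
    have hR2 : (R : ℝ) ^ (1 + ε / 2) ≤ (R : ℝ) ^ (1 + ε) :=
      Real.rpow_le_rpow_of_exponent_le hR1 (by linarith)
    have hRn2 : (Rn : ℝ) ^ (ε / 2) ≤ (Rn : ℝ) ^ ε :=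
      Real.rpow_le_rpow_of_exponent_le hRn1 (by linarith)
    calc (R : ℝ) * (((Nat.log 2 X + 1 : ℕ) : ℝ) * ((X : ℝ) ^ (1 / (U : ℝ)) *
          (D1 * (X : ℝ) ^ (ε / 2) * ((Rn : ℝ) * R) ^ (ε / 2))))
        ≤ (R : ℝ) * (((1 / ((ε / 2) * Real.log 2) + 1) * (X : ℝ) ^ (ε / 2)) *
          ((X : ℝ) ^ (1 / (U : ℝ)) * (D1 * (X : ℝ) ^ (ε / 2) * ((Rn : ℝ) * R) ^ (ε / 2)))) := by
          refine mul_le_mul_of_nonneg_left (mul_le_mul_of_nonneg_right hlog (by positivity))
            (by positivity)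
      _ = (1 / ((ε / 2) * Real.log 2) + 1) * D1 * (R : ℝ) ^ (1 + ε / 2) *
          (X : ℝ) ^ (1 / (U : ℝ) + ε) * (Rn : ℝ) ^ (ε / 2) := by
          rw [Real.mul_rpow hRn0.le hR0.le, Real.rpow_add hR0, Real.rpow_one]
          have h9 : (X : ℝ) ^ (1 / (U : ℝ) + ε) = (X : ℝ) ^ (1 / (U : ℝ)) *
              ((X : ℝ) ^ (ε / 2) * (X : ℝ) ^ (ε / 2)) := by
            rw [← Real.rpow_add hX0, ← Real.rpow_add hX0]
            congr 1
            ring
          rw [h9]
          ring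
      _ ≤ _ := by
          refine mul_le_mul (mul_le_mul_of_nonneg_right (mul_le_mul_of_nonneg_left hR2
            (by positivity)) (by positivity)) hRn2 (by positivity) (by positivity)
  · rintro x hx1 hxX ⟨u, hu, m, hm1, hmR, h⟩
    rw [Finset.mem_biUnion]
    refine ⟨m, Finset.mem_Icc.2 ⟨hm1, hmR⟩, ?_⟩
    rw [Finset.mem_biUnion]
    have hNm : Rn * m ≠ 0 := (Nat.mul_pos hRn hm1).ne'
    by_cases hul : u ≤ Nat.log 2 X
    · obtain ⟨b, z, hb, hz, hxz, hzp⟩ := decomp (by omega) hNm (by omega) h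
      refine ⟨u - U, Finset.mem_range.2 (by omega), Finset.mem_image.2 ⟨(b, z), ?_, ?_⟩⟩
      · have hzx : z ≤ x := by
          rw [hxz]
          exact Nat.le_mul_of_pos_left z (pow_pos hb u)
        have hbx : b ^ u ≤ X := by
          refine le_trans ?_ hxX
          rw [hxz]
          exact Nat.le_mul_of_pos_right _ hz
        rw [Finset.mem_product, Finset.mem_Icc, Finset.mem_filter, Finset.mem_Icc]
        refine ⟨⟨hb, ?_⟩, ⟨hz, hzx.trans hxX⟩, hzp⟩
        refine Nat.le_floor ?_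
        have hb0 : (0 : ℝ) ≤ b := Nat.cast_nonneg _
        have hU0 : (0 : ℝ) < U := by exact_mod_cast hU
        have h10 : (b : ℝ) ^ (U : ℕ) ≤ X := by
          have h11 : b ^ U ≤ X := (Nat.pow_le_pow_right hb hu).trans hbx
          exact_mod_cast h11
        calc (b : ℝ) = ((b : ℝ) ^ (U : ℕ)) ^ (1 / (U : ℝ)) := by
              rw [← Real.rpow_natCast, ← Real.rpow_mul hb0, mul_one_div_cancel hU0.ne',
                Real.rpow_one]
          _ ≤ _ := Real.rpow_le_rpow (by positivity) h10 (by positivity)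
      · simp only
        rw [Nat.add_sub_cancel' hu, ← hxz]
    · refine ⟨0, Finset.mem_range.2 (by omega), Finset.mem_image.2 ⟨(1, x), ?_, ?_⟩⟩
      · rw [Finset.mem_product, Finset.mem_Icc, Finset.mem_filter, Finset.mem_Icc]
        refine ⟨⟨le_rfl, ?_⟩, ⟨hx1, hxX⟩, ?_⟩
        · refine Nat.le_floor ?_
          rw [Nat.cast_one]
          exact Real.one_le_rpow hX1 (by positivity)
        · intro q hq
          have hqp := Nat.prime_of_mem_primeFactors hq
          rw [Nat.mem_primeFactors]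
          refine ⟨hqp, ?_, hNm⟩
          by_contra hqN
          have h11 := h q hqp hqN
          have h12 : 0 < x.factorization q :=
            hqp.factorization_pos_of_dvd (by omega) (Nat.dvd_of_mem_primeFactors hq)
          have h13 := Nat.le_of_dvd h12 h11
          have h14 : x.factorization q ≤ Nat.log 2 X := by
            have h15 : q ^ x.factorization q ≤ X :=
              (Nat.ordProj_le q (by omega)).trans hxX
            have h16 : 2 ^ x.factorization q ≤ X :=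
              (Nat.pow_le_pow_left hqp.two_le _).trans h15
            exact Nat.le_log_of_pow_le one_lt_two h16
          omega
      · simp only [one_pow, one_mul]

end Pool.Agent.Q170.FZ
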